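import Mathlib

/-!
# Finitely square-skeletal normal functors are skeletal (MP_7a056a_gt, Q1)

We work with Mathlib's category `CompHaus.{u}` of compact Hausdorff spaces and continuous maps and
with covariant functors `F : CompHaus.{u} ⥤ CompHaus.{u}`.
-/

set_option autoImplicit false

universe u

open CategoryTheory CategoryTheory.Limits TopologicalSpace Set Function Topology

namespace Pool.Agent.Results.MP_7a056a_gt.SquareSkeletal

/-- A map `f : X → Y` is skeletal if `f ⁻¹' A` is nowhere dense in `X` for every nowhere dense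
`A ⊆ Y`. -/
def SkeletalMap {X Y : Type*} [TopologicalSpace X] [TopologicalSpace Y] (f : X → Y) : Prop :=
  ∀ A : Set Y, IsNowhereDense A → IsNowhereDense (f ⁻¹' A)

/-- A commutative square of maps between compacta: `f : X → Y`, `f' : X' → Y'`,
`pX : X' → X`, `pY : Y' → Y` with `f ∘ pX = pY ∘ f'`. -/
structure Square where
  /-- lower left corner -/
  X : CompHaus.{u}
  /-- lower right corner -/
  Y : CompHaus.{u}
  /-- upper left corner -/
  X' : CompHaus.{u}
  /-- upper right corner -/
  Y' : CompHaus.{u}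
  /-- lower horizontal map -/
  f : X ⟶ Y
  /-- upper horizontal map -/
  f' : X' ⟶ Y'
  /-- left vertical map -/
  pX : X' ⟶ X
  /-- right vertical map -/
  pY : Y' ⟶ Y
  /-- the square commutes -/
  comm : pX ≫ f = f' ≫ pY

/-- The square `F 𝒟`. -/
def Square.map (F : CompHaus.{u} ⥤ CompHaus.{u}) (D : Square.{u}) : Square.{u} where
  X := F.obj D.X
  Y := F.obj D.Y
  X' := F.obj D.X'
  Y' := F.obj D.Y'
  f := F.map D.f
  f' := F.map D.f'
  pX := F.map D.pX
  pY := F.map D.pY
  comm := by rw [← F.map_comp, ← F.map_comp, D.comm]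

/-- A square is bicommutative if `f' (pX⁻¹ (x)) = pY⁻¹ (f (x))` for all `x ∈ X`. -/
def Square.Bicommutative (D : Square.{u}) : Prop :=
  ∀ x : D.X, D.f' '' (D.pX ⁻¹' {x}) = D.pY ⁻¹' {D.f x}

/-- A square is skeletal at `x ∈ X` if for each neighbourhood `U` of `x` there is a non-empty open
`V ⊆ Y` with `V ⊆ f (U)` and `pY⁻¹ (V) ⊆ f' (pX⁻¹ (U))`. -/
def Square.SkeletalAt (D : Square.{u}) (x : D.X) : Prop :=
  ∀ U ∈ 𝓝 x, ∃ V : Set D.Y, IsOpen V ∧ V.Nonempty ∧ V ⊆ D.f '' U ∧
    D.pY ⁻¹' V ⊆ D.f' '' (D.pX ⁻¹' U)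

/-- A square is skeletal if it is skeletal at every point of `X`. -/
def Square.Skeletal (D : Square.{u}) : Prop := ∀ x : D.X, D.SkeletalAt x

/-- The weight of a topological space: the least cardinality of a base. -/
noncomputable def weight (X : Type u) [TopologicalSpace X] : Cardinal.{u} :=
  ⨅ B : {B : Set (Set X) // IsTopologicalBasis B}, Cardinal.mk B.1

/-- A closed subset of a compactum, as a compactum. -/
def sub (X : CompHaus.{u}) (A : Closeds X) : CompHaus.{u} :=
  haveI : CompactSpace A := isCompact_iff_compactSpace.mp A.isClosed.isCompact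
  CompHaus.of A

/-- The inclusion of a closed subset of a compactum. -/
def subIncl (X : CompHaus.{u}) (A : Closeds X) : sub X A ⟶ X :=
  haveI : CompactSpace A := isCompact_iff_compactSpace.mp A.isClosed.isCompact
  CompHausLike.ofHom (fun _ ↦ True) ⟨(Subtype.val : A → X), continuous_subtype_val⟩

/-- `F A` as a subset of `F X`, for a closed subset `A` of `X`: the image of `F` of the
inclusion. -/
def imageSub (F : CompHaus.{u} ⥤ CompHaus.{u}) (X : CompHaus.{u}) (A : Closeds X) :
    Set (F.obj X) :=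
  range (F.map (subIncl X A))

/-- Normal functors in Shchepin's sense. -/
structure Normal (F : CompHaus.{u} ⥤ CompHaus.{u}) : Prop where
  /-- `F` is monomorphic: it preserves injectivity of maps. -/
  mono : ∀ ⦃X Y : CompHaus.{u}⦄ (f : X ⟶ Y), Injective f → Injective (F.map f)
  /-- `F` is epimorphic: it preserves surjectivity of maps. -/
  epi : ∀ ⦃X Y : CompHaus.{u}⦄ (f : X ⟶ Y), Surjective f → Surjective (F.map f)
  /-- `F` is continuous: it commutes with limits of inverse spectra, i.e. of diagrams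
  `Jᵒᵖ ⥤ CompHaus` with `J` a (nonempty) directed partially ordered set. -/
  continuous : ∀ (J : Type u) [PartialOrder J] [IsDirectedOrder J] [Nonempty J],
    PreservesLimitsOfShape Jᵒᵖ F
  /-- `F` preserves intersections of closed subspaces. -/
  inter : ∀ (X : CompHaus.{u}) (ι : Type u) (A : ι → Closeds X),
    imageSub F X (⨅ i, A i) = ⋂ i, imageSub F X (A i)
  /-- `F` preserves the empty space. -/
  empty : ∀ X : CompHaus.{u}, IsEmpty X → IsEmpty (F.obj X)
  /-- `F` preserves the one-point space. -/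
  point : ∀ X : CompHaus.{u}, Nonempty (Unique X) → Nonempty (Unique (F.obj X))
  /-- `F` does not raise the weight of infinite compacta. -/
  weight_le : ∀ X : CompHaus.{u}, Infinite X → weight (F.obj X) ≤ weight X
  /-- `F` preserves preimages: it takes bicommutative squares with injective horizontal maps to
  bicommutative squares. -/
  preimage : ∀ D : Square.{u}, D.Bicommutative → Injective D.f → Injective D.f' →
    (D.map F).Bicommutative

/-- `F` is finitely square-skeletal if `F 𝒟` is skeletal for every skeletal square `𝒟` whose four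
maps are surjective and whose four spaces are finite. -/
def FinitelySquareSkeletal (F : CompHaus.{u} ⥤ CompHaus.{u}) : Prop :=
  ∀ D : Square.{u}, Finite D.X → Finite D.Y → Finite D.X' → Finite D.Y' →
    Surjective D.f → Surjective D.f' → Surjective D.pX → Surjective D.pY →
    D.Skeletal → (D.map F).Skeletal

/-- `F` is skeletal if `F f` is skeletal for every open surjection `f` between compacta. -/
def SkeletalFunctor (F : CompHaus.{u} ⥤ CompHaus.{u}) : Prop :=
  ∀ ⦃X Y : CompHaus.{u}⦄ (f : X ⟶ Y), Surjective f → IsOpenMap f → SkeletalMap (F.map f)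

/-! ### General topology -/

section Topology

theorem skeletalMap_of_interior {X Y : Type*} [TopologicalSpace X] [TopologicalSpace Y]
    {f : X → Y} (hf : Continuous f)
    (h : ∀ U : Set X, IsOpen U → U.Nonempty → ∃ V : Set Y, IsOpen V ∧ V.Nonempty ∧ V ⊆ f '' U) :
    SkeletalMap f := by
  intro A hA
  unfold IsNowhereDense at hA ⊢
  by_contra hne
  obtain ⟨V, hVo, hVne, hV⟩ := h _ isOpen_interior (nonempty_iff_ne_empty.mpr hne)
  have h1 : V ⊆ closure A := by
    refine hV.trans ?_
    rintro _ ⟨x, hx, rfl⟩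
    have hx' : x ∈ closure (f ⁻¹' A) := interior_subset hx
    exact (closure_minimal (preimage_mono subset_closure)
      (isClosed_closure.preimage hf)) hx'
  have h2 : V ⊆ interior (closure A) := interior_maximal h1 hVo
  rw [hA] at h2
  obtain ⟨v, hv⟩ := hVne
  exact h2 hv


/-- For a closed map, if the fibre over `y` is inside an open set `U`, there is an open
neighbourhood `V` of `y` with preimage inside `U`. -/
theorem exists_open_preimage_subset {X Y : Type*} [TopologicalSpace X] [TopologicalSpace Y]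
    {f : X → Y} (hf : IsClosedMap f) {U : Set X} (hU : IsOpen U) {y : Y}
    (hy : ∀ x, f x = y → x ∈ U) : ∃ V : Set Y, IsOpen V ∧ y ∈ V ∧ f ⁻¹' V ⊆ U := by
  refine ⟨(f '' Uᶜ)ᶜ, (hf _ hU.isClosed_compl).isOpen_compl, ?_, ?_⟩
  · rintro ⟨x, hx, hxy⟩
    exact hx (hy x hxy)
  · intro x hx
    by_contra hxU
    exact hx ⟨x, hxU, rfl⟩

/-- A surjection is irreducible if no proper closed subset is mapped onto the codomain. -/
def Irred {X Y : Type*} [TopologicalSpace X] (f : X → Y) : Prop :=
  ∀ C : Set X, IsClosed C → f '' C = univ → C = univ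

theorem exists_cover_aux (Y : Type u) [TopologicalSpace Y] [CompactSpace Y] [T2Space Y]
    (D : Type u) (tD : TopologicalSpace D) (hD : DiscreteTopology D) (i : D → Y)
    (his : Surjective i) :
    ∃ (E : Type u) (_ : TopologicalSpace E) (_ : CompactSpace E) (_ : T2Space E)
      (_ : ExtremallyDisconnected E) (e : E → Y), Continuous e ∧ Surjective e ∧ Irred e := by
  have hi : Continuous i := continuous_of_discreteTopology
  let P := StoneCech D
  let π : P → Y := stoneCechExtend hi
  have hπ : Continuous π := continuous_stoneCechExtend hi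
  have hπs : Surjective π := fun y => by
    obtain ⟨d, rfl⟩ := his y
    exact ⟨stoneCechUnit d, congr_fun (stoneCechExtend_extends hi) d⟩
  have hP : CompactT2.Projective P := StoneCech.projective
  obtain ⟨E, hE, hEs, hEz⟩ := exists_compact_surjective_zorn_subset hπ hπs
  let e : E → Y := E.domRestrict π
  have he : Continuous e := hπ.continuousOn.domRestrict
  have hes : Surjective e := fun y => by
    have : y ∈ π '' E := by rw [hEs]; trivial
    obtain ⟨x, hx, rfl⟩ := this
    exact ⟨⟨x, hx⟩, rfl⟩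
  have hirr : Irred e := by
    intro C hC hCe
    by_contra hne
    exact hEz C hne hC hCe
  obtain ⟨r, hr, hre⟩ := hP hπ he hes
  -- the retraction restricted to `E` is the identity
  have hid : ∀ x : E, r x = x := by
    intro x
    by_contra hx
    obtain ⟨G₁, G₂, hG₁, hG₂, h1, h2, hd⟩ := t2_separation hx
    let s : E → E := fun z => r z
    have hs : Continuous s := hr.comp continuous_subtype_val
    have hes' : ∀ z, e (s z) = e z := fun z => congr_fun hre (z : P)
    let G : Set E := G₂ ∩ s ⁻¹' G₁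
    have hGo : IsOpen G := hG₂.inter (hG₁.preimage hs)
    have hxG : x ∈ G := ⟨h2, h1⟩
    have := hirr Gᶜ hGo.isClosed_compl (by
      refine eq_univ_of_forall fun y => ?_
      obtain ⟨z, rfl⟩ := hes y
      by_cases hz : z ∈ G
      · refine ⟨s z, fun hsz => ?_, hes' z⟩
        exact Set.disjoint_left.mp hd hz.2 hsz.1
      · exact ⟨z, hz, rfl⟩)
    have hx' : x ∈ Gᶜ := by rw [this]; trivial
    exact hx' hxG
  have hproj : CompactT2.Projective E := by
    intro A B _ _ _ _ _ _ f g hf hg hgs
    obtain ⟨h, hh, hgh⟩ := hP (hf.comp hr) hg hgs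
    refine ⟨fun x => h x, hh.comp continuous_subtype_val, ?_⟩
    funext x
    have := congr_fun hgh (x : P)
    simp only [Function.comp_apply] at this ⊢
    rw [this, hid x]
  exact ⟨E, inferInstance, inferInstance, inferInstance,
    CompactT2.Projective.extremallyDisconnected hproj, e, he, hes, hirr⟩

/-- Every compact Hausdorff space is the image of a compact Hausdorff extremally disconnected
space under an irreducible map (Gleason). -/
theorem exists_cover (Y : Type u) [TopologicalSpace Y] [CompactSpace Y] [T2Space Y] :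
    ∃ (E : Type u) (_ : TopologicalSpace E) (_ : CompactSpace E) (_ : T2Space E)
      (_ : ExtremallyDisconnected E) (e : E → Y), Continuous e ∧ Surjective e ∧ Irred e :=
  exists_cover_aux Y Y ⊥ (@DiscreteTopology.mk Y ⊥ rfl) id surjective_id

/-- A lift of an open surjection to irreducible extremally disconnected covers is an open
surjection. -/
theorem lift_isOpenMap {X Y X' Y' : Type*} [TopologicalSpace X] [TopologicalSpace Y]
    [TopologicalSpace X'] [TopologicalSpace Y'] [CompactSpace X'] [T2Space X'] [T2Space X]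
    [CompactSpace X] [T2Space Y] [CompactSpace Y] [CompactSpace Y'] [T2Space Y']
    [TotallyDisconnectedSpace X'] [ExtremallyDisconnected Y']
    {f : X → Y} {f' : X' → Y'} {eX : X' → X} {eY : Y' → Y}
    (hf' : Continuous f') (heX : Continuous eX) (heY : Continuous eY)
    (hcomm : ∀ x, eY (f' x) = f (eX x)) (hfo : IsOpenMap f) (hfs : Surjective f)
    (heXs : Surjective eX) (heXi : Irred eX) (heYi : Irred eY) :
    IsOpenMap f' ∧ Surjective f' := by
  have hcl : IsClosedMap f' := hf'.isClosedMap
  -- the interior of the image of a nonempty clopen set is nonempty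
  have key : ∀ A : Set X', IsClopen A → A.Nonempty → (interior (f' '' A)).Nonempty := by
    intro A hA hne
    let W₀ : Set X := (eX '' Aᶜ)ᶜ
    have hW₀ : IsOpen W₀ := (heX.isClosedMap _ hA.compl.isClosed).isOpen_compl
    have hW₀ne : W₀.Nonempty := by
      rw [nonempty_iff_ne_empty]
      intro h
      have h1 : eX '' Aᶜ = univ := by
        rw [← compl_compl (eX '' Aᶜ)]
        simp only [W₀] at h
        rw [h, compl_empty]
      have := heXi _ hA.compl.isClosed h1
      obtain ⟨a, ha⟩ := hne
      have h2 : a ∈ Aᶜ := by rw [this]; trivial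
      exact h2 ha
    have hW₀A : eX ⁻¹' W₀ ⊆ A := by
      intro x hx
      by_contra hxA
      exact hx ⟨x, hxA, rfl⟩
    let W₁ : Set Y := f '' W₀
    have hW₁ : IsOpen W₁ := hfo _ hW₀
    have hcov : W₁ ⊆ eY '' (f' '' A) := by
      rintro _ ⟨x, hx, rfl⟩
      obtain ⟨x', rfl⟩ := heXs x
      exact ⟨f' x', ⟨x', hW₀A hx, rfl⟩, hcomm x'⟩
    have hC : IsClosed (f' '' A ∪ (eY ⁻¹' W₁)ᶜ) :=
      (hcl _ hA.isClosed).union (hW₁.preimage heY).isClosed_compl
    have hCim : eY '' (f' '' A ∪ (eY ⁻¹' W₁)ᶜ) = univ := by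
      refine eq_univ_of_forall fun y => ?_
      by_cases hy : y ∈ W₁
      · obtain ⟨z, hz, rfl⟩ := hcov hy
        exact ⟨z, Or.inl hz, rfl⟩
      · obtain ⟨x, rfl⟩ := hfs y
        obtain ⟨x', rfl⟩ := heXs x
        refine ⟨f' x', Or.inr ?_, hcomm x'⟩
        simp only [mem_compl_iff, mem_preimage, hcomm x']
        exact hy
    have hall := heYi _ hC hCim
    have hsub : eY ⁻¹' W₁ ⊆ f' '' A := by
      intro z hz
      have : z ∈ f' '' A ∪ (eY ⁻¹' W₁)ᶜ := by rw [hall]; trivial
      rcases this with h | h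
      · exact h
      · exact absurd hz h
    obtain ⟨x, hx⟩ := hW₀ne
    obtain ⟨x', rfl⟩ := heXs x
    refine ⟨f' x', interior_maximal hsub (hW₁.preimage heY) ?_⟩
    simp only [mem_preimage, hcomm x']
    exact ⟨_, hx, rfl⟩
  have hclopen : ∀ A : Set X', IsClopen A → IsOpen (f' '' A) := by
    intro A hA
    have hle : closure (interior (f' '' A)) ⊆ f' '' A :=
      closure_minimal interior_subset (hcl _ hA.isClosed)
    have hge : f' '' A ⊆ closure (interior (f' '' A)) := by
      rintro _ ⟨a, ha, rfl⟩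
      by_contra hna
      have hop : IsOpen (A ∩ f' ⁻¹' (closure (interior (f' '' A)))ᶜ) :=
        hA.isOpen.inter (isClosed_closure.isOpen_compl.preimage hf')
      obtain ⟨B, hB, haB, hBs⟩ := compact_exists_isClopen_in_isOpen hop ⟨ha, hna⟩
      obtain ⟨z, hz⟩ := key B hB ⟨a, haB⟩
      obtain ⟨b, hb, rfl⟩ := interior_subset hz
      have h1 : f' b ∈ interior (f' '' A) :=
        interior_mono (image_mono (fun x hx => (hBs hx).1)) hz
      exact (hBs hb).2 (subset_closure h1)
    rw [hge.antisymm hle]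
    exact ExtremallyDisconnected.open_closure _ isOpen_interior
  constructor
  · intro U hU
    have : f' '' U = ⋃ A ∈ {A : Set X' | IsClopen A ∧ A ⊆ U}, f' '' A := by
      ext y
      simp only [mem_iUnion]
      constructor
      · rintro ⟨x, hx, rfl⟩
        obtain ⟨B, hB, hxB, hBs⟩ := compact_exists_isClopen_in_isOpen hU hx
        exact ⟨B, ⟨hB, hBs⟩, x, hxB, rfl⟩
      · rintro ⟨A, ⟨-, hA⟩, x, hx, rfl⟩
        exact ⟨x, hA hx, rfl⟩
    rw [this]
    exact isOpen_biUnion fun A hA => hclopen A hA.1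
  · have hr : range f' = univ := by
      rw [← image_univ]
      apply heYi _ (hcl _ isClosed_univ)
      refine eq_univ_of_forall fun y => ?_
      obtain ⟨x, rfl⟩ := hfs y
      obtain ⟨x', rfl⟩ := heXs x
      exact ⟨f' x', ⟨x', trivial, rfl⟩, hcomm x'⟩
    exact range_eq_univ.mp hr

/-- Any pair of discrete quotients can be refined to a pair for which the square formed by an open
surjection and the projections is bicommutative. -/
theorem exists_good {X Y : Type*} [TopologicalSpace X] [TopologicalSpace Y]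
    [CompactSpace X] [T2Space Y] (f : C(X, Y)) (hfo : IsOpenMap f)
    (R : DiscreteQuotient X) (S : DiscreteQuotient Y) :
    ∃ (R' : DiscreteQuotient X) (S' : DiscreteQuotient Y), R' ≤ R ∧ S' ≤ S ∧
      DiscreteQuotient.LEComap f R' S' ∧
      ∀ (x : X) (y : Y), S'.proj (f x) = S'.proj y → ∃ x', R'.proj x' = R'.proj x ∧ f x' = y := by
  classical
  have hclopen : ∀ r : R, IsClopen (f '' (R.proj ⁻¹' {r})) := fun r =>
    ⟨((R.isClosed_preimage {r}).isCompact.image f.continuous).isClosed,
      hfo _ (R.isOpen_preimage {r})⟩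
  -- the finer quotient of `Y`
  let g : Y → (R → Prop) × S := fun y => (fun r => y ∈ f '' (R.proj ⁻¹' {r}), S.proj y)
  let S' : DiscreteQuotient Y :=
    { toSetoid := Setoid.ker g
      isOpen_setOfPred_rel := by
        intro y
        have : (Set.ofPred ((Setoid.ker g) y)) =
            (⋂ r : R, {z | (y ∈ f '' (R.proj ⁻¹' {r})) ↔ (z ∈ f '' (R.proj ⁻¹' {r}))}) ∩
              S.proj ⁻¹' {S.proj y} := by
          ext z
          simp only [Set.mem_ofPred_eq, Setoid.ker_def, g, Prod.mk.injEq, funext_iff, eq_iff_iff,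
            mem_inter_iff, mem_iInter, mem_preimage, mem_singleton_iff]
          exact and_congr_right fun _ => eq_comm
        rw [this]
        refine (isOpen_iInter_of_finite fun r => ?_).inter (S.isOpen_preimage _)
        by_cases hy : y ∈ f '' (R.proj ⁻¹' {r})
        · have : {z | (y ∈ f '' (R.proj ⁻¹' {r})) ↔ (z ∈ f '' (R.proj ⁻¹' {r}))} =
              f '' (R.proj ⁻¹' {r}) := by
            ext z; simp only [mem_ofPred_eq]; exact ⟨fun h => h.1 hy, fun h => ⟨fun _ => h, fun _ => hy⟩⟩
          rw [this]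
          exact (hclopen r).isOpen
        · have : {z | (y ∈ f '' (R.proj ⁻¹' {r})) ↔ (z ∈ f '' (R.proj ⁻¹' {r}))} =
              (f '' (R.proj ⁻¹' {r}))ᶜ := by
            ext z; simp only [mem_ofPred_eq]
            exact ⟨fun h hz => hy (h.2 hz), fun h => ⟨fun h' => absurd h' hy, fun h' => absurd h' h⟩⟩
          rw [this]
          exact (hclopen r).compl.isOpen }
  have hS' : ∀ y z : Y, S'.proj y = S'.proj z ↔ g y = g z := by
    intro y z
    constructor
    · intro h
      exact Quotient.exact' h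
    · intro h
      exact Quotient.sound' h
  let R' : DiscreteQuotient X := R ⊓ S'.comap f
  refine ⟨R', S', inf_le_left, ?_, inf_le_right, ?_⟩
  · intro y z h
    have h1 : g y = g z := h
    have h2 : S.proj y = S.proj z := congrArg Prod.snd h1
    exact Quotient.exact' h2
  · intro x y hxy
    have hg : g (f x) = g y := (hS' _ _).1 hxy
    have h1 : (f x ∈ f '' (R.proj ⁻¹' {R.proj x})) = (y ∈ f '' (R.proj ⁻¹' {R.proj x})) :=
      congr_fun (congrArg Prod.fst hg) (R.proj x)
    have h2 : y ∈ f '' (R.proj ⁻¹' {R.proj x}) := by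
      rw [← h1]; exact ⟨x, rfl, rfl⟩
    obtain ⟨x', hx', rfl⟩ := h2
    refine ⟨x', ?_, rfl⟩
    refine Quotient.sound' ⟨?_, ?_⟩
    · exact Quotient.exact' hx'
    · exact hg.symm

end Topology


/-! ### Consequences of finite square-skeletality -/

section Functor

variable {F : CompHaus.{u} ⥤ CompHaus.{u}}

theorem map_comp_apply' {X Y Z : CompHaus.{u}} (f : X ⟶ Y) (g : Y ⟶ Z) (x : F.obj X) :
    F.map (f ≫ g) x = F.map g (F.map f x) := by
  rw [F.map_comp]; rfl

theorem cont {X Y : CompHaus.{u}} (f : X ⟶ Y) : Continuous f := f.hom.hom.continuous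

theorem t1_of (X : Type*) [TopologicalSpace X] [T2Space X] : T1Space X := inferInstance

theorem regular_of (X : Type*) [TopologicalSpace X] [T2Space X] [CompactSpace X] :
    RegularSpace X := inferInstance

theorem t1 (X : CompHaus.{u}) : T1Space X := @t1_of X _ X.is_hausdorff

theorem regular (X : CompHaus.{u}) : RegularSpace X := @regular_of X _ X.is_hausdorff X.is_compact

/-- A finite compactum is discrete. -/
theorem discrete_of_finite (X : CompHaus.{u}) (h : Finite X) : DiscreteTopology X := by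
  have := h
  exact @Finite.instDiscreteTopology X _ (t1 X) h

/-- Finite bicommutative squares are skeletal. -/
theorem skeletal_of_bicommutative (D : Square.{u}) (hX : Finite D.X) (hY : Finite D.Y)
    (hD : D.Bicommutative) : D.Skeletal := by
  have := discrete_of_finite D.X hX
  have := discrete_of_finite D.Y hY
  intro x U hU
  refine ⟨{D.f x}, isOpen_discrete _, singleton_nonempty _, ?_, ?_⟩
  · rintro _ rfl
    exact ⟨x, mem_of_mem_nhds hU, rfl⟩
  · rw [← hD x]
    refine image_mono (preimage_mono ?_)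
    rintro _ rfl
    exact mem_of_mem_nhds hU

/-- `F` of a surjection between finite compacta maps open sets onto sets with interior. -/
theorem finitely_skeletal (hS : FinitelySquareSkeletal F) {X Y : CompHaus.{u}} (f : X ⟶ Y)
    (hX : Finite X) (hY : Finite Y) (hf : Surjective f) (U : Set (F.obj X)) (hU : IsOpen U)
    (hne : U.Nonempty) : ∃ V : Set (F.obj Y), IsOpen V ∧ V.Nonempty ∧ V ⊆ F.map f '' U := by
  let D : Square.{u} :=
    { X := X, Y := Y, X' := X, Y' := Y, f := f, f' := f, pX := 𝟙 X, pY := 𝟙 Y, comm := by simp }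
  have hD : D.Bicommutative := by
    intro x
    ext y
    constructor
    · rintro ⟨x', hx', rfl⟩
      have : x' = x := hx'
      subst this
      rfl
    · intro hy
      exact ⟨x, rfl, hy.symm⟩
  obtain ⟨x, hx⟩ := hne
  obtain ⟨V, hV, hVne, hVU, -⟩ := hS D hX hY hX hY hf hf surjective_id surjective_id
    (skeletal_of_bicommutative D hX hY hD) x U (hU.mem_nhds hx)
  exact ⟨V, hV, hVne, hVU⟩

/-- The key uniformity lemma: for a finite bicommutative square of surjections and any open
`U ⊆ F X`, every point of `F Y'` lying over the interior of `F f (U)` lifts to a point of `F X'`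
lying over the closure of `U`. -/
theorem uniform_lift (hS : FinitelySquareSkeletal F) (D : Square.{u})
    (hX : Finite D.X) (hY : Finite D.Y) (hX' : Finite D.X') (hY' : Finite D.Y')
    (hf : Surjective D.f) (hf' : Surjective D.f') (hpX : Surjective D.pX) (hpY : Surjective D.pY)
    (hD : D.Bicommutative) (U : Set (F.obj D.X)) (hU : IsOpen U) :
    (F.map D.pY) ⁻¹' (interior (F.map D.f '' U)) ⊆ F.map D.f' '' ((F.map D.pX) ⁻¹' (closure U)) := by
  intro y hy
  by_contra hyA
  let A : Set (F.obj D.Y') := F.map D.f' '' ((F.map D.pX) ⁻¹' (closure U))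
  have hA : IsClosed A :=
    CompHausLike.isClosedMap (F.map D.f') _ (isClosed_closure.preimage (cont _))
  let B : Set (F.obj D.Y') := Aᶜ ∩ (F.map D.pY) ⁻¹' (interior (F.map D.f '' U))
  have hB : IsOpen B := hA.isOpen_compl.inter (isOpen_interior.preimage (cont _))
  obtain ⟨W, hW, hWne, hWB⟩ := finitely_skeletal hS D.pY hY' hY hpY B hB ⟨y, hyA, hy⟩
  have hWint : W ⊆ interior (F.map D.f '' U) := by
    intro w hw
    obtain ⟨b, hb, rfl⟩ := hWB hw
    exact hb.2
  let U' : Set (F.obj D.X) := U ∩ (F.map D.f) ⁻¹' W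
  have hU' : IsOpen U' := hU.inter (hW.preimage (cont _))
  obtain ⟨w, hw⟩ := hWne
  obtain ⟨x, hxU, hxw⟩ := interior_subset (hWint hw)
  have hxU' : x ∈ U' := ⟨hxU, by rw [mem_preimage, hxw]; exact hw⟩
  obtain ⟨V, hV, ⟨v, hv⟩, hVU, hVl⟩ := hS D hX hY hX' hY' hf hf' hpX hpY
    (skeletal_of_bicommutative D hX hY hD) x U' (hU'.mem_nhds hxU')
  obtain ⟨x', hx', hx'v⟩ := hVU hv
  have hvW : v ∈ W := by rw [← hx'v]; exact hx'.2
  obtain ⟨b, hb, hbv⟩ := hWB hvW
  have hbV : F.map D.pY b ∈ V := by rw [hbv]; exact hv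
  obtain ⟨z, hz, hzb⟩ := hVl hbV
  exact hb.1 ⟨z, subset_closure hz.1, hzb⟩

/-! ### Profinite spaces as limits of their finite quotients -/

/-- The finite quotient of a compactum given by a discrete quotient. -/
abbrev quot (Z : CompHaus.{u}) (R : DiscreteQuotient Z) : CompHaus.{u} := CompHaus.of R

/-- The projection to a finite quotient. -/
def qmap (Z : CompHaus.{u}) (R : DiscreteQuotient Z) : Z ⟶ quot Z R :=
  ConcreteCategory.ofHom (X := Z) (Y := quot Z R) ⟨R.proj, R.proj_continuous⟩

/-- The map between finite quotients. -/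
def qle (Z : CompHaus.{u}) {R S : DiscreteQuotient Z} (h : R ≤ S) : quot Z R ⟶ quot Z S :=
  ConcreteCategory.ofHom (X := quot Z R) (Y := quot Z S)
    ⟨DiscreteQuotient.ofLE h, DiscreteQuotient.ofLE_continuous h⟩

theorem qmap_qle (Z : CompHaus.{u}) {R S : DiscreteQuotient Z} (h : R ≤ S) :
    qmap Z R ≫ qle Z h = qmap Z S := by
  ext x
  rfl

theorem qmap_surjective (Z : CompHaus.{u}) (R : DiscreteQuotient Z) : Surjective (qmap Z R) :=
  R.proj_surjective

theorem finite_quot (Z : CompHaus.{u}) (R : DiscreteQuotient Z) : Finite (quot Z R) :=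
  inferInstanceAs (Finite R)

/-- The diagram of finite quotients. -/
def qdiag (Z : CompHaus.{u}) : DiscreteQuotient Z ⥤ CompHaus.{u} where
  obj R := quot Z R
  map h := qle Z h.le
  map_id R := by
    ext x
    obtain ⟨z, rfl⟩ := R.proj_surjective x
    rfl
  map_comp f g := by
    ext x
    obtain ⟨z, rfl⟩ := DiscreteQuotient.proj_surjective _ x
    rfl

/-- The cone of finite quotients. -/
def qcone (Z : CompHaus.{u}) : Cone (qdiag Z) where
  pt := Z
  π :=
    { app := fun R => qmap Z R
      naturality := by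
        intro R S h
        ext x
        rfl }

theorem isIso_qcone_lift (Z : CompHaus.{u}) [TotallyDisconnectedSpace Z] :
    IsIso ((CompHaus.limitConeIsLimit.{u, u} (qdiag Z)).lift (qcone Z)) :=
  CompHausLike.isIso_of_bijective _
    (by
      refine ⟨fun a b h => ?_, fun a => ?_⟩
      · have : TotallyDisconnectedSpace (qcone Z).pt :=
          inferInstanceAs (TotallyDisconnectedSpace Z)
        refine DiscreteQuotient.eq_of_forall_proj_eq (X := Z) fun S => ?_
        apply_fun fun f : (CompHaus.limitCone.{u, u} (qdiag Z)).pt => f.val S at h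
        exact h
      · obtain ⟨b, hb⟩ :=
          DiscreteQuotient.exists_of_compat (fun S => a.val S) fun _ _ h => a.prop (homOfLE h)
        use b
        apply Subtype.ext
        apply funext
        rintro S
        apply hb)

/-- A profinite space is the limit of its finite quotients. -/
noncomputable def qlimit (Z : CompHaus.{u}) [TotallyDisconnectedSpace Z] : IsLimit (qcone Z) :=
  haveI := isIso_qcone_lift Z
  IsLimit.ofIsoLimit (CompHaus.limitConeIsLimit.{u, u} (qdiag Z))
    (Cone.ext (asIso ((CompHaus.limitConeIsLimit.{u, u} (qdiag Z)).lift (qcone Z)))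
      fun _ => rfl).symm

theorem preservesLimits_discreteQuotient (hN : Normal F) (Z : CompHaus.{u}) :
    PreservesLimitsOfShape (DiscreteQuotient Z) F := by
  have hdir : IsDirectedOrder (DiscreteQuotient Z)ᵒᵈ :=
    ⟨fun a b => ⟨OrderDual.toDual (OrderDual.ofDual a ⊓ OrderDual.ofDual b),
      (inf_le_left : OrderDual.ofDual a ⊓ OrderDual.ofDual b ≤ OrderDual.ofDual a),
      (inf_le_right : OrderDual.ofDual a ⊓ OrderDual.ofDual b ≤ OrderDual.ofDual b)⟩⟩
  have hne : Nonempty (DiscreteQuotient Z)ᵒᵈ := ⟨OrderDual.toDual (⊤ : DiscreteQuotient Z)⟩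
  have : PreservesLimitsOfShape ((DiscreteQuotient Z)ᵒᵈ)ᵒᵖ F :=
    @Normal.continuous F hN (DiscreteQuotient Z)ᵒᵈ _ hdir hne
  exact preservesLimitsOfShape_of_equiv
    ((orderDualEquivalence (DiscreteQuotient Z)).op.trans (opOpEquivalence (DiscreteQuotient Z))) F

/-- Points of `F Z`, `Z` profinite, are separated by the maps to the `F (Z / R)`. -/
theorem separated (hN : Normal F) (Z : CompHaus.{u}) [TotallyDisconnectedSpace Z]
    (x y : F.obj Z) (h : ∀ R : DiscreteQuotient Z, F.map (qmap Z R) x = F.map (qmap Z R) y) :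
    x = y := by
  have := preservesLimits_discreteQuotient hN Z
  have hl : IsLimit (F.mapCone (qcone Z)) := isLimitOfPreserves F (qlimit Z)
  let P : CompHaus.{u} := CompHaus.of PUnit.{u + 1}
  let a : P ⟶ F.obj Z := ConcreteCategory.ofHom (X := P) (Y := F.obj Z) ⟨fun _ => x, continuous_const⟩
  let b : P ⟶ F.obj Z := ConcreteCategory.ofHom (X := P) (Y := F.obj Z) ⟨fun _ => y, continuous_const⟩
  have hab : a = b := hl.hom_ext (fun R => by
    ext z
    exact h R)
  exact congrArg (fun f : P ⟶ F.obj Z => f PUnit.unit) hab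

/-- Basic open sets of `F Z`, `Z` profinite, come from finite quotients. -/
theorem exists_quotient_nhd (hN : Normal F) (Z : CompHaus.{u}) [TotallyDisconnectedSpace Z]
    (U : Set (F.obj Z)) (hU : IsOpen U) (x : F.obj Z) (hx : x ∈ U) :
    ∃ (R : DiscreteQuotient Z) (W : Set (F.obj (quot Z R))), IsOpen W ∧ F.map (qmap Z R) x ∈ W ∧
      (F.map (qmap Z R)) ⁻¹' (closure W) ⊆ U := by
  -- some quotient separates `x` from the complement of `U`
  have h1 : ∃ R : DiscreteQuotient Z, ∀ y, F.map (qmap Z R) y = F.map (qmap Z R) x → y ∈ U := by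
    by_contra hcon
    push Not at hcon
    let C : DiscreteQuotient Z → Set (F.obj Z) := fun R =>
      Uᶜ ∩ (F.map (qmap Z R)) ⁻¹' {F.map (qmap Z R) x}
    have hCc : ∀ R, IsClosed (C R) := fun R =>
      have := t1 (F.obj (quot Z R))
      hU.isClosed_compl.inter (isClosed_singleton.preimage (cont _))
    obtain ⟨y, hy⟩ : (⋂ R, C R).Nonempty := by
      apply IsCompact.nonempty_iInter_of_directed_nonempty_isCompact_isClosed C
      · intro R S
        refine ⟨R ⊓ S, ?_, ?_⟩
        · rintro y ⟨hyU, hy⟩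
          refine ⟨hyU, ?_⟩
          have hy' : F.map (qmap Z (R ⊓ S)) y = F.map (qmap Z (R ⊓ S)) x := hy
          change F.map (qmap Z R) y = F.map (qmap Z R) x
          rw [← qmap_qle Z (inf_le_left : R ⊓ S ≤ R), map_comp_apply', map_comp_apply', hy']
        · rintro y ⟨hyU, hy⟩
          refine ⟨hyU, ?_⟩
          have hy' : F.map (qmap Z (R ⊓ S)) y = F.map (qmap Z (R ⊓ S)) x := hy
          change F.map (qmap Z S) y = F.map (qmap Z S) x
          rw [← qmap_qle Z (inf_le_right : R ⊓ S ≤ S), map_comp_apply', map_comp_apply', hy']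
      · intro R
        obtain ⟨y, hy, hyU⟩ := hcon R
        exact ⟨y, hyU, hy⟩
      · exact fun R => (hCc R).isCompact
      · exact hCc
    have hy' := mem_iInter.mp hy
    have : y = x := separated hN Z y x fun R => (hy' R).2
    exact (hy' ⊤).1 (this ▸ hx)
  obtain ⟨R, hR⟩ := h1
  obtain ⟨V, hV, hxV, hVU⟩ := exists_open_preimage_subset
    (CompHausLike.isClosedMap (F.map (qmap Z R))) hU hR
  have hreg : RegularSpace (F.obj (quot Z R)) := regular _
  obtain ⟨T, hT, hTc, hTV⟩ := exists_mem_nhds_isClosed_subset (hV.mem_nhds hxV)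
  refine ⟨R, interior T, isOpen_interior, mem_interior_iff_mem_nhds.mpr hT, ?_⟩
  refine (preimage_mono ?_).trans hVU
  exact (closure_minimal interior_subset hTc).trans hTV

/-- The map between finite quotients induced by `f`. -/
def qf {X Y : CompHaus.{u}} (f : X ⟶ Y) {R : DiscreteQuotient X} {S : DiscreteQuotient Y}
    (h : DiscreteQuotient.LEComap f.hom.hom R S) : quot X R ⟶ quot Y S :=
  ConcreteCategory.ofHom (X := quot X R) (Y := quot Y S)
    ⟨DiscreteQuotient.map f.hom.hom h, DiscreteQuotient.map_continuous h⟩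

theorem qmap_qf {X Y : CompHaus.{u}} (f : X ⟶ Y) {R : DiscreteQuotient X} {S : DiscreteQuotient Y}
    (h : DiscreteQuotient.LEComap f.hom.hom R S) : qmap X R ≫ qf f h = f ≫ qmap Y S := by
  ext x
  rfl

theorem qf_surjective {X Y : CompHaus.{u}} (f : X ⟶ Y) (hf : Surjective f)
    {R : DiscreteQuotient X} {S : DiscreteQuotient Y}
    (h : DiscreteQuotient.LEComap f.hom.hom R S) : Surjective (qf f h) := by
  intro y
  obtain ⟨y', rfl⟩ := qmap_surjective Y S y
  obtain ⟨x, rfl⟩ := hf y'
  exact ⟨qmap X R x, rfl⟩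

theorem qle_surjective (Z : CompHaus.{u}) {R S : DiscreteQuotient Z} (h : R ≤ S) :
    Surjective (qle Z h) := by
  intro y
  obtain ⟨z, rfl⟩ := qmap_surjective Z S y
  exact ⟨qmap Z R z, rfl⟩

/-- Step 1: open surjections between profinite spaces. -/
theorem skeletal_profinite (hN : Normal F) (hS : FinitelySquareSkeletal F) {X Y : CompHaus.{u}}
    [TotallyDisconnectedSpace X] [TotallyDisconnectedSpace Y] (f : X ⟶ Y) (hf : Surjective f)
    (hfo : IsOpenMap f) (U : Set (F.obj X)) (hU : IsOpen U) (hne : U.Nonempty) :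
    ∃ V : Set (F.obj Y), IsOpen V ∧ V.Nonempty ∧ V ⊆ F.map f '' U := by
  obtain ⟨x₀, hx₀⟩ := hne
  obtain ⟨R₀, W₀, hW₀, hx₀W, hW₀U⟩ := exists_quotient_nhd hN X U hU x₀ hx₀
  obtain ⟨R, S, hRR₀, -, hRS, hgood⟩ := exists_good (X := X) (Y := Y) f.hom.hom hfo R₀ ⊤
  let W : Set (F.obj (quot X R)) := (F.map (qle X hRR₀)) ⁻¹' W₀
  have hW : IsOpen W := hW₀.preimage (cont _)
  have hxW : F.map (qmap X R) x₀ ∈ W := by
    change F.map (qle X hRR₀) (F.map (qmap X R) x₀) ∈ W₀
    rw [← map_comp_apply', qmap_qle]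
    exact hx₀W
  have hWcl : closure W ⊆ (F.map (qle X hRR₀)) ⁻¹' (closure W₀) :=
    closure_minimal (preimage_mono subset_closure) (isClosed_closure.preimage (cont _))
  obtain ⟨V', hV', hV'ne, hV'W⟩ := finitely_skeletal hS (qf f hRS) (finite_quot X R)
    (finite_quot Y S) (qf_surjective f hf hRS) W hW ⟨_, hxW⟩
  let V₁ : Set (F.obj (quot Y S)) := interior (F.map (qf f hRS) '' W)
  have hV₁ : IsOpen V₁ := isOpen_interior
  have hV₁ne : V₁.Nonempty := hV'ne.mono (interior_maximal hV'W hV')
  refine ⟨(F.map (qmap Y S)) ⁻¹' V₁, hV₁.preimage (cont _), ?_, ?_⟩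
  · obtain ⟨v, hv⟩ := hV₁ne
    obtain ⟨y, rfl⟩ := hN.epi _ (qmap_surjective Y S) v
    exact ⟨y, hv⟩
  intro y hy
  let K : DiscreteQuotient Y → Set (F.obj X) := fun S₁ =>
    (F.map (qmap X R)) ⁻¹' (closure W) ∩
      {x | F.map (qmap Y S₁) (F.map f x) = F.map (qmap Y S₁) y}
  have hKc : ∀ S₁, IsClosed (K S₁) := fun S₁ =>
    have := t1 (F.obj (quot Y S₁))
    (isClosed_closure.preimage (cont _)).inter
      ((isClosed_singleton (x := F.map (qmap Y S₁) y)).preimage
        ((cont (F.map (qmap Y S₁))).comp (cont (F.map f))))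
  have hKmono : ∀ {S₁ S₂ : DiscreteQuotient Y}, S₂ ≤ S₁ → K S₂ ⊆ K S₁ := by
    rintro S₁ S₂ h x ⟨hx1, hx2⟩
    refine ⟨hx1, ?_⟩
    have hx2' : F.map (qmap Y S₂) (F.map f x) = F.map (qmap Y S₂) y := hx2
    change F.map (qmap Y S₁) (F.map f x) = F.map (qmap Y S₁) y
    rw [← qmap_qle Y h, map_comp_apply', map_comp_apply', hx2']
  obtain ⟨x, hx⟩ : (⋂ S₁, K S₁).Nonempty := by
    apply IsCompact.nonempty_iInter_of_directed_nonempty_isCompact_isClosed K
    · exact fun S₁ S₂ => ⟨S₁ ⊓ S₂, hKmono inf_le_left, hKmono inf_le_right⟩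
    · intro S₁
      obtain ⟨R₂, S₂, hR₂, hS₂, hRS₂, hgood₂⟩ :=
        exists_good (X := X) (Y := Y) f.hom.hom hfo R (S₁ ⊓ S)
      have hS₂S : S₂ ≤ S := hS₂.trans inf_le_right
      have hS₂S₁ : S₂ ≤ S₁ := hS₂.trans inf_le_left
      let D : Square.{u} :=
        { X := quot X R, Y := quot Y S, X' := quot X R₂, Y' := quot Y S₂,
          f := qf f hRS, f' := qf f hRS₂, pX := qle X hR₂, pY := qle Y hS₂S,
          comm := by
            ext x
            obtain ⟨x, rfl⟩ := qmap_surjective X R₂ x
            rfl }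
      have hD : D.Bicommutative := by
        intro r
        obtain ⟨x, rfl⟩ := qmap_surjective X R r
        ext s
        obtain ⟨y', rfl⟩ := qmap_surjective Y S₂ s
        constructor
        · rintro ⟨r', hr', hs⟩
          obtain ⟨x', rfl⟩ := qmap_surjective X R₂ r'
          have h1 : qmap X R x' = qmap X R x := hr'
          have h2 : qmap Y S₂ (f x') = qmap Y S₂ y' := hs
          change qle Y hS₂S (qmap Y S₂ y') = qf f hRS (qmap X R x)
          rw [← h2, ← h1]
          rfl
        · intro h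
          have h1 : S.proj (f x) = S.proj y' := (show S.proj y' = S.proj (f x) from h).symm
          obtain ⟨x', hx', hfx'⟩ := hgood x y' h1
          refine ⟨qmap X R₂ x', ?_, ?_⟩
          · change R.proj x' = R.proj x
            exact hx'
          · change qmap Y S₂ (f x') = qmap Y S₂ y'
            exact congrArg _ hfx'
      have hlift := uniform_lift hS D (finite_quot X R) (finite_quot Y S) (finite_quot X R₂)
        (finite_quot Y S₂) (qf_surjective f hf hRS) (qf_surjective f hf hRS₂)
        (qle_surjective X hR₂) (qle_surjective Y hS₂S) hD W hW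
      have hy₂ : F.map (qmap Y S₂) y ∈ (F.map D.pY) ⁻¹' (interior (F.map D.f '' W)) := by
        change F.map (qle Y hS₂S) (F.map (qmap Y S₂) y) ∈ V₁
        rw [← map_comp_apply', qmap_qle]
        exact hy
      obtain ⟨x₂, hx₂, hx₂y⟩ := hlift hy₂
      obtain ⟨x, rfl⟩ := hN.epi _ (qmap_surjective X R₂) x₂
      refine ⟨x, ?_, ?_⟩
      · change F.map (qmap X R) x ∈ closure W
        rw [← qmap_qle X hR₂, map_comp_apply']
        exact hx₂
      · change F.map (qmap Y S₁) (F.map f x) = F.map (qmap Y S₁) y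
        rw [← qmap_qle Y hS₂S₁, map_comp_apply', map_comp_apply', ← map_comp_apply' f,
          ← qmap_qf f hRS₂, map_comp_apply']
        exact congrArg _ hx₂y
    · exact fun S₁ => (hKc S₁).isCompact
    · exact hKc
  have hx' := mem_iInter.mp hx
  refine ⟨x, hW₀U ?_, separated hN Y _ _ fun S₁ => (hx' S₁).2⟩
  have h1 : F.map (qmap X R) x ∈ closure W := (hx' ⊤).1
  have h2 := hWcl h1
  change F.map (qmap X R₀) x ∈ closure W₀
  rw [← qmap_qle X hRR₀, map_comp_apply']
  exact h2

/-- Step 2: irreducible maps defined on profinite spaces. -/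
theorem irreducible_profinite (hN : Normal F) {Z Y : CompHaus.{u}} [TotallyDisconnectedSpace Z]
    (e : Z ⟶ Y) (hes : Surjective e) (he : Irred e) (U : Set (F.obj Z)) (hU : IsOpen U)
    (hne : U.Nonempty) :
    ∃ V : Set (F.obj Y), IsOpen V ∧ V.Nonempty ∧ (F.map e) ⁻¹' V ⊆ U := by
  obtain ⟨z₀, hz₀⟩ := hne
  obtain ⟨R, W, hW, hzW, hWU⟩ := exists_quotient_nhd hN Z U hU z₀ hz₀
  -- for each class choose a point of `Y` whose fibre lies in the class
  have hy : ∀ r : R, ∃ y : Y, ∀ z : Z, e z = y → R.proj z = r := by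
    intro r
    by_contra hcon
    push Not at hcon
    have h1 : e '' (R.proj ⁻¹' {r})ᶜ = univ := by
      refine eq_univ_of_forall fun y => ?_
      obtain ⟨z, hz, hzr⟩ := hcon y
      exact ⟨z, hzr, hz⟩
    have h2 := he _ (R.isOpen_preimage {r}).isClosed_compl h1
    obtain ⟨z, rfl⟩ := R.proj_surjective r
    have h3 : z ∈ (R.proj ⁻¹' {R.proj z})ᶜ := by rw [h2]; trivial
    exact h3 rfl
  choose τ hτ using hy
  have hfin : Finite R := inferInstance
  let τm : quot Z R ⟶ Y := ConcreteCategory.ofHom (X := quot Z R) (Y := Y)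
    ⟨τ, continuous_of_discreteTopology⟩
  have := t1 Y
  let T : Closeds Z := ⟨e ⁻¹' (range τ), (finite_range τ).isClosed.preimage (cont e)⟩
  have hτinj : Injective τ := by
    intro r s hrs
    obtain ⟨z, hz⟩ := hes (τ r)
    rw [← hτ r z hz, ← hτ s z (hz.trans hrs)]
  let D : Square.{u} :=
    { X := quot Z R, Y := Y, X' := sub Z T, Y' := Z,
      f := τm, f' := subIncl Z T, pX := subIncl Z T ≫ qmap Z R, pY := e,
      comm := by
        ext x
        obtain ⟨z, r, hr⟩ := x
        change τ (R.proj z) = e z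
        rw [hτ r z hr.symm]
        exact hr }
  have hD : D.Bicommutative := by
    intro r
    ext z
    constructor
    · rintro ⟨x, hx, rfl⟩
      obtain ⟨z, s, hs⟩ := x
      have h1 : R.proj z = r := hx
      change e z = τ r
      rw [← h1, hτ s z hs.symm]
      exact hs.symm
    · intro hz
      have h1 : e z = τ r := hz
      exact ⟨⟨z, r, h1.symm⟩, hτ r z h1, rfl⟩
  have hFD := hN.preimage D hD hτinj Subtype.val_injective
  let ξ : F.obj (quot Z R) := F.map (qmap Z R) z₀
  have hfib : ∀ θ : F.obj Z, F.map e θ = F.map τm ξ → θ ∈ U := by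
    intro θ hθ
    have h1 : θ ∈ (F.map e) ⁻¹' {F.map τm ξ} := hθ
    have h2 := hFD ξ
    obtain ⟨θ₀, hθ₀, hθ₀'⟩ := (Set.ext_iff.mp h2 θ).mpr h1
    have h5 : F.map (subIncl Z T) θ₀ = θ := hθ₀'
    subst h5
    have h4 : F.map (subIncl Z T ≫ qmap Z R) θ₀ = ξ := hθ₀
    apply hWU
    change F.map (qmap Z R) (F.map (subIncl Z T) θ₀) ∈ closure W
    rw [← map_comp_apply', h4]
    exact subset_closure hzW
  obtain ⟨V, hV, hξV, hVU⟩ := exists_open_preimage_subset
    (CompHausLike.isClosedMap (F.map e)) hU hfib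
  exact ⟨V, hV, ⟨_, hξV⟩, hVU⟩

end Functor

/-- **Answer to Q1 (positive).** Every normal functor `F : Comp → Comp` that is finitely
square-skeletal is skeletal. -/
theorem result (F : CompHaus.{u} ⥤ CompHaus.{u}) (hN : Normal F)
    (hS : FinitelySquareSkeletal F) : SkeletalFunctor F := by
  intro X Y f hf hfo
  apply skeletalMap_of_interior (cont _)
  intro U hU hUne
  obtain ⟨X', _, _, _, _, eX, heX, heXs, heXi⟩ := exists_cover X
  obtain ⟨Y', _, _, _, _, eY, heY, heYs, heYi⟩ := exists_cover Y
  obtain ⟨f', hf', hf'e⟩ :=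
    (CompactT2.ExtremallyDisconnected.projective (A := X')) ((cont f).comp heX) heY heYs
  have hcomm : ∀ x, eY (f' x) = f (eX x) := fun x => congr_fun hf'e x
  obtain ⟨hf'o, hf's⟩ := lift_isOpenMap hf' heX heY hcomm hfo hf heXs heXi heYi
  let CX' : CompHaus.{u} := CompHaus.of X'
  let CY' : CompHaus.{u} := CompHaus.of Y'
  let mX : CX' ⟶ X := ConcreteCategory.ofHom (X := CX') (Y := X) ⟨eX, heX⟩
  let mY : CY' ⟶ Y := ConcreteCategory.ofHom (X := CY') (Y := Y) ⟨eY, heY⟩
  let mf : CX' ⟶ CY' := ConcreteCategory.ofHom (X := CX') (Y := CY') ⟨f', hf'⟩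
  have hsq : mf ≫ mY = mX ≫ f := by
    ext x
    exact hcomm x
  have : TotallyDisconnectedSpace CX' := inferInstanceAs (TotallyDisconnectedSpace X')
  have : TotallyDisconnectedSpace CY' := inferInstanceAs (TotallyDisconnectedSpace Y')
  obtain ⟨u, hu⟩ := hUne
  obtain ⟨u', rfl⟩ := hN.epi mX heXs u
  obtain ⟨V', hV', hV'ne, hV'U⟩ := skeletal_profinite hN hS mf hf's hf'o ((F.map mX) ⁻¹' U)
    (hU.preimage (cont _)) ⟨u', hu⟩
  obtain ⟨V, hV, hVne, hVV'⟩ := irreducible_profinite hN mY heYs heYi V' hV' hV'ne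
  refine ⟨V, hV, hVne, ?_⟩
  intro v hv
  obtain ⟨v', rfl⟩ := hN.epi mY heYs v
  obtain ⟨x', hx', hx'v⟩ := hV'U (hVV' hv)
  refine ⟨F.map mX x', hx', ?_⟩
  rw [← map_comp_apply', ← hsq, map_comp_apply', hx'v]

end Pool.Agent.Results.MP_7a056a_gt.SquareSkeletal
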